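import Pool.Agent.W784.RR.Region2

set_option autoImplicit false
open MeasureTheory Set Filter Topology
open scoped ENNReal NNReal

namespace Pool.Agent.W396.RRPDisc

open Pool.Agent.Helper88.RB Pool.Agent.W784.RR

/-- Uniform probability measure on the unit circle of `ℂ`. -/
noncomputable def circ : Measure ℂ :=
  ((ENNReal.ofReal (2 * Real.pi))⁻¹ • volume.restrict (Ioc (0:ℝ) (2 * Real.pi))).map
    (circleMap 0 1)

theorem circleMap_meas : Measurable (circleMap (0:ℂ) 1) := (continuous_circleMap 0 1).measurable

theorem two_pi_ne : ENNReal.ofReal (2 * Real.pi) ≠ 0 := by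
  rw [Ne, ENNReal.ofReal_eq_zero, not_le]; positivity

theorem circ_univ : circ univ = 1 := by
  unfold circ
  rw [Measure.map_apply circleMap_meas MeasurableSet.univ, preimage_univ, Measure.smul_apply,
    Measure.restrict_apply MeasurableSet.univ, univ_inter, Real.volume_Ioc, sub_zero, smul_eq_mul]
  exact ENNReal.inv_mul_cancel two_pi_ne ENNReal.ofReal_ne_top

theorem lintegral_circ {f : ℂ → ℝ≥0∞} (hf : Measurable f) :
    ∫⁻ z, f z ∂circ = (ENNReal.ofReal (2 * Real.pi))⁻¹ *
      ∫⁻ θ in Ioc (0:ℝ) (2 * Real.pi), f (circleMap 0 1 θ) := by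
  unfold circ
  rw [lintegral_map hf circleMap_meas, lintegral_smul_measure, smul_eq_mul]

theorem circ_sphere : ∀ᵐ z ∂circ, ‖z‖ = 1 := by
  unfold circ
  rw [ae_map_iff circleMap_meas.aemeasurable
    (measurableSet_eq_fun measurable_norm measurable_const)]
  refine Eventually.of_forall fun θ => ?_
  simp

/-- The kernel on `ℂ`. -/
noncomputable def kk (R : ℝ) (x y : ℂ) : ℝ≥0∞ :=
  if x = y then ⊤ else ENNReal.ofReal (Real.log (R / dist x y))

theorem kk_meas (R : ℝ) : Measurable (fun p : ℂ × ℂ => kk R p.1 p.2) := by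
  unfold kk
  refine Measurable.ite (measurableSet_eq_fun measurable_fst measurable_snd) measurable_const ?_
  fun_prop

theorem kk_meas' (R : ℝ) (x : ℂ) : Measurable (fun y : ℂ => kk R x y) :=
  (kk_meas R).comp (measurable_const.prodMk measurable_id)

theorem pot {x : ℂ} (hx : ‖x‖ = 1) {R : ℝ} (hR : 2 ≤ R) :
    ∫⁻ y, kk R x y ∂circ = ENNReal.ofReal (Real.log R) := by
  have hR0 : 0 < R := by linarith
  rw [lintegral_circ (kk_meas' R x)]
  -- the angle is unique up to a null set
  have hae : ∀ᵐ θ ∂(volume.restrict (Ioc (0:ℝ) (2 * Real.pi))),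
      kk R x (circleMap 0 1 θ) =
        ENNReal.ofReal (Real.log R - Real.log ‖circleMap 0 1 θ - x‖) := by
    have hnull : ∀ᵐ θ ∂(volume.restrict (Ioc (0:ℝ) (2 * Real.pi))), circleMap 0 1 θ ≠ x := by
      have hc : (circleMap (0:ℂ) 1 ⁻¹' {x}).Countable :=
        (countable_singleton x).preimage_circleMap 0 one_ne_zero
      have h0 : volume (circleMap (0:ℂ) 1 ⁻¹' {x}) = 0 := hc.measure_zero _
      have h1 : ∀ᵐ θ : ℝ, circleMap 0 1 θ ≠ x := by
        rw [ae_iff]
        simpa [Set.preimage] using h0
      exact ae_restrict_of_ae h1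
    filter_upwards [hnull] with θ hθ
    unfold kk
    rw [if_neg (Ne.symm hθ), dist_comm, dist_eq_norm,
      Real.log_div hR0.ne' (norm_ne_zero_iff.2 (sub_ne_zero.2 hθ))]
  rw [lintegral_congr_ae hae, ← ofReal_integral_eq_lintegral_ofReal]
  · have hci := circleIntegrable_log_norm_sub_const (a := x) (c := 0) 1
    have hav := circleAverage_log_norm_sub_const₁ (a := x) hx
    have h2pi : (0:ℝ) ≤ 2 * Real.pi := by positivity
    have hii : IntervalIntegrable (fun θ => Real.log ‖circleMap 0 1 θ - x‖) volume 0
        (2 * Real.pi) := hci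
    rw [← intervalIntegral.integral_of_le h2pi, intervalIntegral.integral_sub
      intervalIntegrable_const hii, intervalIntegral.integral_const]
    rw [Real.circleAverage_def, smul_eq_mul] at hav
    have hz : ∫ θ in (0:ℝ)..2 * Real.pi, Real.log ‖circleMap 0 1 θ - x‖ = 0 := by
      rcases mul_eq_zero.1 hav with h | h
      · exfalso
        have : (0:ℝ) < (2 * Real.pi)⁻¹ := by positivity
        linarith
      · exact h
    rw [hz, sub_zero, sub_zero, smul_eq_mul, ENNReal.ofReal_mul h2pi, ← mul_assoc,
      ENNReal.inv_mul_cancel two_pi_ne ENNReal.ofReal_ne_top, one_mul]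
  · have hci := circleIntegrable_log_norm_sub_const (a := x) (c := 0) 1
    have h2pi : (0:ℝ) ≤ 2 * Real.pi := by positivity
    have hii : IntervalIntegrable (fun θ => Real.log ‖circleMap 0 1 θ - x‖) volume 0
        (2 * Real.pi) := hci
    rw [← IntegrableOn, ← intervalIntegrable_iff_integrableOn_Ioc_of_le h2pi]
    exact intervalIntegrable_const.sub hii
  · refine Eventually.of_forall fun θ => ?_
    have h1 : ‖circleMap 0 1 θ - x‖ ≤ 2 := by
      refine (norm_sub_le _ _).trans ?_
      rw [hx]
      simp
      norm_num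
    show (0:ℝ) ≤ Real.log R - Real.log ‖circleMap 0 1 θ - x‖
    rcases (norm_nonneg (circleMap 0 1 θ - x)).eq_or_lt with h | h
    · rw [← h, Real.log_zero, sub_zero]
      exact Real.log_nonneg (by linarith)
    · rw [sub_nonneg]
      exact Real.log_le_log h (h1.trans hR)

theorem diam_disc : Metric.diam (Metric.closedBall (0 : E 2) 1) ≤ 2 := by
  have := Metric.diam_closedBall (x := (0 : E 2)) (r := 1) zero_le_one
  linarith

theorem diam_disc' : Metric.diam (Metric.closedBall (0 : E 2) 1) = 2 := by
  refine le_antisymm diam_disc ?_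
  have h := Metric.dist_le_diam_of_mem (Metric.isBounded_closedBall (x := (0 : E 2)) (r := 1))
    (x := phi 1) (y := phi (-1)) (by rw [mem_closedBall_zero_iff, phi.norm_map]; simp)
    (by rw [mem_closedBall_zero_iff, phi.norm_map]; simp)
  rw [phi.dist_map] at h
  refine le_trans (le_of_eq ?_) h
  rw [Complex.dist_eq]
  norm_num

theorem LN_disc : LN (Metric.closedBall (0 : E 2) 1) ≤ ENNReal.ofReal (Real.log 3) := by
  unfold LN
  refine iInf₂_le_of_le (circ.map phi) ⟨?_, ?_⟩ ?_
  · rw [Measure.map_apply phi_meas MeasurableSet.univ, preimage_univ, circ_univ]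
  · rw [Measure.map_apply phi_meas Metric.isClosed_closedBall.measurableSet.compl]
    have h : ∀ᵐ z ∂circ, z ∈ phi ⁻¹' (Metric.closedBall (0 : E 2) 1) := by
      filter_upwards [circ_sphere] with z hz
      rw [mem_preimage, mem_closedBall_zero_iff, phi.norm_map, hz]
    rw [ae_iff] at h
    exact h
  · rw [diam_disc']
    have hm : Measurable (fun p : E 2 × E 2 => (if p.1 = p.2 then (⊤ : ENNReal) else
        ENNReal.ofReal (Real.log (((2:ℝ) + 1) / dist p.1 p.2)))) := by
      refine Measurable.ite (measurableSet_eq_fun measurable_fst measurable_snd)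
        measurable_const ?_
      fun_prop
    have hp : IsProbabilityMeasure circ := ⟨circ_univ⟩
    have hp' : IsProbabilityMeasure (circ.map phi) :=
      Measure.isProbabilityMeasure_map phi_meas.aemeasurable
    rw [lintegral_map hm.lintegral_prod_right' phi_meas]
    calc ∫⁻ x, ∫⁻ y, (if phi x = y then (⊤ : ENNReal) else
          ENNReal.ofReal (Real.log (((2:ℝ) + 1) / dist (phi x) y))) ∂(circ.map phi) ∂circ
        = ∫⁻ x, ∫⁻ y, kk 3 x y ∂circ ∂circ := by
          refine lintegral_congr fun x => ?_
          have hm1 : Measurable (fun y : E 2 => (if phi x = y then (⊤ : ENNReal) else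
              ENNReal.ofReal (Real.log (((2:ℝ) + 1) / dist (phi x) y)))) :=
            hm.comp (measurable_const.prodMk measurable_id)
          rw [lintegral_map hm1 phi_meas]
          refine lintegral_congr fun y => ?_
          unfold kk
          rw [phi.dist_map]
          simp only [EmbeddingLike.apply_eq_iff_eq]
          norm_num
      _ = ∫⁻ x, ENNReal.ofReal (Real.log 3) ∂circ := by
          refine lintegral_congr_ae ?_
          filter_upwards [circ_sphere] with x hx
          exact pot hx (by norm_num)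
      _ = ENNReal.ofReal (Real.log 3) := by simp
      _ ≤ ENNReal.ofReal (Real.log 3) := le_rfl

/-- The unit disc has logarithmic capacity at least `1`. -/
theorem PDisc_proof : PDisc := by
  unfold PDisc capF
  have hL := LN_disc
  have hne : LN (Metric.closedBall (0 : E 2) 1) ≠ ⊤ :=
    ne_top_of_le_ne_top ENNReal.ofReal_ne_top hL
  rw [if_neg (lt_irrefl _), if_pos rfl, if_neg hne, diam_disc']
  have h1 : (LN (Metric.closedBall (0 : E 2) 1)).toReal ≤ Real.log 3 :=
    ENNReal.toReal_le_of_le_ofReal (Real.log_nonneg (by norm_num)) hL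
  have h2 : Real.exp (-Real.log 3) ≤ Real.exp (-(LN (Metric.closedBall (0 : E 2) 1)).toReal) :=
    Real.exp_le_exp.2 (by linarith)
  rw [Real.exp_neg, Real.exp_log (by norm_num)] at h2
  nlinarith

end Pool.Agent.W396.RRPDisc
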