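import Pool.Agent.W246.LG.Defs

/-!
Project LG (MP_c4c804_co), part EXPAND: exact identity.
-/

set_option autoImplicit false

namespace Pool.Agent.W396.LGExpand

open Finset Pool.Agent.W246.LG

lemma aux {p : ℕ} [Fact p.Prime] (w : ZMod p → ℝ) (S : Finset (ZMod p)) (y : ZMod p → ZMod p)
    (h : ℕ) (f : ZMod p → ℤ → ℂ) :
    ∑ c, (w c : ℂ) * ∏ b ∈ S, ∑ j ∈ Icc (-(h : ℤ)) (h : ℤ), f b j * ZMod.stdAddChar (j • (c * y b)) =
    ∑ m ∈ S.pi (fun _ => Icc (-(h : ℤ)) (h : ℤ)), (∏ x ∈ S.attach, f x.1 (m x.1 x.2)) *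
      ∑ c, (w c : ℂ) * ZMod.stdAddChar (c * ∑ x ∈ S.attach, m x.1 x.2 • y x.1) := by
  have hsum : ∀ (s : Finset {x // x ∈ S}) (g : {x // x ∈ S} → ZMod p),
      (ZMod.stdAddChar (∑ x ∈ s, g x) : ℂ) = ∏ x ∈ s, (ZMod.stdAddChar (g x) : ℂ) := by
    intro s g
    classical
    induction s using Finset.induction_on with
    | empty => simp
    | insert a s ha ih => rw [Finset.sum_insert ha, Finset.prod_insert ha,
        AddChar.map_add_eq_mul, ih]
  have h1 : ∀ c : ZMod p, (w c : ℂ) *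
      ∏ b ∈ S, ∑ j ∈ Icc (-(h : ℤ)) (h : ℤ), f b j * ZMod.stdAddChar (j • (c * y b)) =
      ∑ m ∈ S.pi (fun _ => Icc (-(h : ℤ)) (h : ℤ)), (∏ x ∈ S.attach, f x.1 (m x.1 x.2)) *
        ((w c : ℂ) * ZMod.stdAddChar (c * ∑ x ∈ S.attach, m x.1 x.2 • y x.1)) := by
    intro c
    rw [Finset.prod_sum, Finset.mul_sum]
    refine Finset.sum_congr rfl fun m _ => ?_
    rw [Finset.prod_mul_distrib, Finset.mul_sum, hsum]
    have : ∀ x : {x // x ∈ S}, (ZMod.stdAddChar (m x.1 x.2 • (c * y x.1)) : ℂ) =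
        ZMod.stdAddChar (c * (m x.1 x.2 • y x.1)) := by
      intro x; rw [mul_smul_comm]
    simp_rw [this]
    ring
  simp_rw [h1]
  rw [Finset.sum_comm]
  refine Finset.sum_congr rfl fun m _ => ?_
  rw [Finset.mul_sum]

theorem main : S_expand := by
  intro p _ w T hw S y h f f' hf
  classical
  rw [aux, aux]
  refine Finset.sum_congr rfl fun m hm => ?_
  set m' : ZMod p → ℤ := fun b => if hb : b ∈ S then m b hb else 0 with hm'
  have hm'x : ∀ x : {x // x ∈ S}, m' x.1 = m x.1 x.2 := by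
    intro x; simp [hm']
  have e1 : ∑ x ∈ S.attach, m x.1 x.2 • y x.1 = ∑ b ∈ S, m' b • y b := by
    rw [← Finset.sum_attach S (fun b => m' b • y b)]
    exact Finset.sum_congr rfl fun x _ => by rw [hm'x]
  by_cases hT : ∑ b ∈ S, m' b • y b ∈ T
  · have h2 : ∀ b ∈ S, |m' b| ≤ (h : ℤ) := by
      intro b hb
      have := (Finset.mem_pi.1 hm) b hb
      rw [Finset.mem_Icc] at this
      rw [hm'x ⟨b, hb⟩]
      exact abs_le.2 this
    congr 1
    refine Finset.prod_congr rfl fun x _ => ?_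
    rw [← hm'x x]
    exact hf m' h2 hT x.1 x.2
  · rw [e1, hw _ hT, mul_zero, mul_zero]

end Pool.Agent.W396.LGExpand
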