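import Pool.Agent.W246.LG.Defs

/-!
Project LG (MP_c4c804_co), part FEJER: the pinning measure.
-/

set_option autoImplicit false

namespace Pool.Agent.W396.LGFejer

open Finset Pool.Agent.W246.LG

variable {p : ℕ} [Fact p.Prime]

lemma norm_psi (x : ZMod p) : ‖(ZMod.stdAddChar x : ℂ)‖ = 1 := by
  rw [ZMod.stdAddChar_apply]; exact Circle.norm_coe _

/-- nonnegative Fourier coefficients `A`, supported in `T` -/
structure Good (T : Set (ZMod p)) (f : ZMod p → ℝ) (A : ZMod p → ℝ) : Prop where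
  nonneg : ∀ g, 0 ≤ A g
  supp : ∀ g, g ∉ T → A g = 0
  eq : ∀ c, (f c : ℂ) = ∑ g, (A g : ℂ) * ZMod.stdAddChar (c * g)

lemma Good.sum_mul {T : Set (ZMod p)} {f A : ZMod p → ℝ} (h : Good T f A) (g : ZMod p) :
    ∑ c, (f c : ℂ) * ZMod.stdAddChar (c * g) = (p : ℂ) * (A (-g) : ℂ) := by
  have h1 : ∀ c, (f c : ℂ) * ZMod.stdAddChar (c * g) =
      ∑ x, (A x : ℂ) * ZMod.stdAddChar (c * (x + g)) := by
    intro c
    rw [h.eq c, Finset.sum_mul]
    refine Finset.sum_congr rfl fun x _ => ?_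
    rw [mul_add, AddChar.map_add_eq_mul, mul_assoc]
  simp_rw [h1]
  rw [Finset.sum_comm]
  have h2 : ∀ x : ZMod p, ∑ c, (A x : ℂ) * ZMod.stdAddChar (c * (x + g)) =
      if x = -g then (p : ℂ) * (A x : ℂ) else 0 := by
    intro x
    rw [← Finset.mul_sum, AddChar.sum_mulShift _ (ZMod.isPrimitive_stdAddChar p)]
    by_cases hx : x = -g
    · subst hx; simp [ZMod.card, mul_comm]
    · have : x + g ≠ 0 := fun h => hx (eq_neg_of_add_eq_zero_left h)
      simp [hx, this]
  simp_rw [h2]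
  simp

lemma Good.sum_eq {T : Set (ZMod p)} {f A : ZMod p → ℝ} (h : Good T f A) :
    ∑ c, f c = (p : ℝ) * A 0 := by
  have := h.sum_mul 0
  simp only [mul_zero, AddChar.map_zero_eq_one, mul_one, neg_zero] at this
  exact_mod_cast this

lemma Good.mul {T1 T2 T : Set (ZMod p)} {f1 f2 A1 A2 : ZMod p → ℝ} (h1 : Good T1 f1 A1)
    (h2 : Good T2 f2 A2) (hT : ∀ a ∈ T1, ∀ b ∈ T2, a + b ∈ T) :
    Good T (fun c => f1 c * f2 c) (fun g => ∑ x, A1 x * A2 (g - x)) := by
  refine ⟨fun g => Finset.sum_nonneg fun x _ => mul_nonneg (h1.nonneg _) (h2.nonneg _), ?_, ?_⟩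
  · intro g hg
    refine Finset.sum_eq_zero fun x _ => ?_
    by_cases hx : x ∈ T1
    · by_cases hy : g - x ∈ T2
      · exact absurd (by simpa using hT x hx _ hy) hg
      · rw [h2.supp _ hy, mul_zero]
    · rw [h1.supp _ hx, zero_mul]
  · intro c
    push_cast
    rw [h1.eq c, h2.eq c, Finset.sum_mul_sum]
    simp_rw [Finset.sum_mul]
    rw [Finset.sum_comm (s := Finset.univ) (t := Finset.univ)
      (f := fun g x => (A1 x : ℂ) * (A2 (g - x) : ℂ) * ZMod.stdAddChar (c * g))]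
    refine Finset.sum_congr rfl fun x _ => ?_
    refine Fintype.sum_equiv (Equiv.addRight x) _ _ fun y => ?_
    simp only [Equiv.coe_addRight, add_sub_cancel_right]
    rw [mul_add, AddChar.map_add_eq_mul]
    ring

lemma Good.sum_le {T T' : Set (ZMod p)} {f f' A A' : ZMod p → ℝ} (h : Good T f A)
    (h' : Good T' f' A') (h1 : 1 ≤ A' 0) : ∑ c, f c ≤ ∑ c, f c * f' c := by
  have h2 := h.mul h' (T := Set.univ) (fun _ _ _ _ => trivial)
  rw [h2.sum_eq, h.sum_eq]
  refine mul_le_mul_of_nonneg_left ?_ (Nat.cast_nonneg _)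
  have h3 : A 0 * A' (0 - 0) ≤ ∑ x, A x * A' (0 - x) :=
    Finset.single_le_sum (f := fun x => A x * A' (0 - x))
      (fun x _ => mul_nonneg (h.nonneg _) (h'.nonneg _)) (Finset.mem_univ 0)
  rw [sub_zero] at h3
  nlinarith [h.nonneg 0]

/-- the Fejer kernel -/
noncomputable def F (d : ZMod p) (M : ℕ) (c : ZMod p) : ℝ :=
  (1 / M) * ‖∑ j ∈ range M, (ZMod.stdAddChar (c * ((j : ZMod p) * d)) : ℂ)‖ ^ 2

noncomputable def AF (d : ZMod p) (M : ℕ) (g : ZMod p) : ℝ :=
  (1 / M) * ∑ j ∈ range M, ∑ k ∈ range M, if ((j : ℤ) - (k : ℤ)) • d = g then 1 else 0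

lemma F_nonneg (d : ZMod p) (M : ℕ) (c : ZMod p) : 0 ≤ F d M c := by
  unfold F; positivity

lemma F_zero (d : ZMod p) (M : ℕ) (hM : 1 ≤ M) : F d M 0 = M := by
  unfold F
  simp only [zero_mul, AddChar.map_zero_eq_one, sum_const, card_range, nsmul_eq_mul, mul_one]
  have : (0 : ℝ) < M := by exact_mod_cast hM
  simp
  field_simp

lemma good_F (d : ZMod p) (M : ℕ) :
    Good {g | ∃ m : ℤ, |m| ≤ (M : ℤ) ∧ g = m • d} (F d M) (AF d M) := by
  refine ⟨?_, ?_, ?_⟩
  · intro g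
    unfold AF
    refine mul_nonneg (by positivity) (Finset.sum_nonneg fun j _ => Finset.sum_nonneg fun k _ => ?_)
    split_ifs <;> norm_num
  · intro g hg
    unfold AF
    rw [Finset.sum_eq_zero, mul_zero]
    intro j hj
    refine Finset.sum_eq_zero fun k hk => ?_
    rw [if_neg]
    intro h
    refine hg ⟨(j : ℤ) - k, ?_, h.symm⟩
    rw [Finset.mem_range] at hj hk
    rw [abs_le]; constructor <;> omega
  · intro c
    unfold F AF
    have e1 : ((‖∑ j ∈ range M, (ZMod.stdAddChar (c * ((j : ZMod p) * d)) : ℂ)‖ ^ 2 : ℝ) : ℂ) =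
        ∑ j ∈ range M, ∑ k ∈ range M, ZMod.stdAddChar (c * (((j : ℤ) - (k : ℤ)) • d)) := by
      rw [← Complex.normSq_eq_norm_sq, ← Complex.mul_conj, map_sum, Finset.sum_mul_sum]
      refine Finset.sum_congr rfl fun j _ => Finset.sum_congr rfl fun k _ => ?_
      rw [← AddChar.map_neg_eq_conj, ← AddChar.map_add_eq_mul]
      congr 1
      rw [zsmul_eq_mul]; push_cast; ring
    have e2 : ∀ g : ZMod p, ((((1 : ℝ) / M) * ∑ j ∈ range M, ∑ k ∈ range M,
        if ((j : ℤ) - (k : ℤ)) • d = g then (1 : ℝ) else 0 : ℝ) : ℂ) * ZMod.stdAddChar (c * g) =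
        (1 / (M : ℂ)) * ∑ j ∈ range M, ∑ k ∈ range M,
          if ((j : ℤ) - (k : ℤ)) • d = g then (ZMod.stdAddChar (c * g) : ℂ) else 0 := by
      intro g
      push_cast
      rw [mul_assoc, Finset.sum_mul]
      congr 1
      refine Finset.sum_congr rfl fun j _ => ?_
      rw [Finset.sum_mul]
      refine Finset.sum_congr rfl fun k _ => ?_
      split_ifs <;> simp
    have e3 : ∀ j k : ℕ, ∑ g : ZMod p,
        (if ((j : ℤ) - (k : ℤ)) • d = g then (ZMod.stdAddChar (c * g) : ℂ) else 0) =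
        ZMod.stdAddChar (c * (((j : ℤ) - (k : ℤ)) • d)) := by
      intro j k
      simp
    rw [Finset.sum_congr rfl fun g _ => e2 g, ← Finset.mul_sum, Complex.ofReal_mul, e1]
    congr 1
    · push_cast; rfl
    · symm
      rw [Finset.sum_comm]
      refine Finset.sum_congr rfl fun j _ => ?_
      rw [Finset.sum_comm]
      exact Finset.sum_congr rfl fun k _ => e3 j k

lemma AF_zero (d : ZMod p) (M : ℕ) (hM : 1 ≤ M) : 1 ≤ AF d M 0 := by
  unfold AF
  have hM' : (0 : ℝ) < M := by exact_mod_cast hM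
  have h1 : (M : ℝ) ≤ ∑ j ∈ range M, ∑ k ∈ range M,
      if ((j : ℤ) - (k : ℤ)) • d = 0 then (1 : ℝ) else 0 := by
    calc (M : ℝ) = ∑ j ∈ range M, (1 : ℝ) := by simp
      _ ≤ _ := by
        refine Finset.sum_le_sum fun j hj => ?_
        have := Finset.single_le_sum (s := range M)
          (f := fun k : ℕ => if ((j : ℤ) - (k : ℤ)) • d = 0 then (1 : ℝ) else 0)
          (fun k _ => by split_ifs <;> norm_num) hj
        simpa using this
  calc (1 : ℝ) = (1 / M) * M := by field_simp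
    _ ≤ _ := mul_le_mul_of_nonneg_left h1 (by positivity)

/-- the main inequality for a single Fejer kernel -/
lemma F_close (d : ZMod p) (M : ℕ) (c : ZMod p) :
    F d M c * ‖(ZMod.stdAddChar (c * d) : ℂ) - 1‖ ^ 2 ≤ 4 / M := by
  unfold F
  have h1 : ∀ j : ℕ, (ZMod.stdAddChar (c * ((j : ZMod p) * d)) : ℂ) = (ZMod.stdAddChar (c * d) : ℂ) ^ j := by
    intro j
    rw [← AddChar.map_nsmul_eq_pow, nsmul_eq_mul]
    congr 1; ring
  simp_rw [h1]
  rw [mul_assoc, ← mul_pow, ← norm_mul, geom_sum_mul]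
  have h2 : ‖(ZMod.stdAddChar (c * d) : ℂ) ^ M - 1‖ ≤ 2 := by
    refine (norm_sub_le _ _).trans ?_
    rw [norm_pow, norm_psi]; norm_num
  have h3 : ‖(ZMod.stdAddChar (c * d) : ℂ) ^ M - 1‖ ^ 2 ≤ 4 := by nlinarith [norm_nonneg ((ZMod.stdAddChar (c * d) : ℂ) ^ M - 1)]
  calc (1 / (M : ℝ)) * ‖(ZMod.stdAddChar (c * d) : ℂ) ^ M - 1‖ ^ 2 ≤ (1 / M) * 4 :=
        mul_le_mul_of_nonneg_left h3 (by positivity)
    _ = 4 / M := by ring

lemma good_prod {ι : Type} (d : ι → ZMod p) (M : ι → ℕ) (S : Finset ι)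
    (hM : ∀ q ∈ S, 1 ≤ M q) :
    ∃ A, Good (Box S d M) (fun c => ∏ q ∈ S, F (d q) (M q) c) A ∧ 1 ≤ A 0 := by
  classical
  induction S using Finset.induction_on with
  | empty =>
    refine ⟨fun g => if g = 0 then 1 else 0, ⟨?_, ?_, ?_⟩, by simp⟩
    · intro g; split_ifs <;> norm_num
    · intro g hg
      have : g ≠ 0 := by
        rintro rfl
        exact hg ⟨fun _ => 0, by simp, by simp⟩
      simp [this]
    · intro c
      simp only [Finset.prod_empty, Complex.ofReal_one]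
      rw [Finset.sum_eq_single 0]
      · simp
      · intro g _ hg; simp [hg]
      · simp
  | insert q S hq ih =>
    obtain ⟨A, hA, hA0⟩ := ih fun x hx => hM x (Finset.mem_insert_of_mem hx)
    have hF := good_F (d q) (M q)
    have hmul := hA.mul hF (T := Box (insert q S) d M) (by
      rintro a ⟨m, hm, rfl⟩ b ⟨k, hk, rfl⟩
      refine ⟨fun x => if x = q then k else m x, ?_, ?_⟩
      · intro x hx
        by_cases hxq : x = q
        · subst hxq; simpa using hk
        · simp only [if_neg hxq]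
          exact hm x ((Finset.mem_insert.1 hx).resolve_left hxq)
      · rw [Finset.sum_insert hq]
        simp only [if_true]
        rw [add_comm]
        congr 1
        refine Finset.sum_congr rfl fun x hx => ?_
        rw [if_neg (fun h : x = q => hq (h ▸ hx))])
    refine ⟨_, ⟨hmul.nonneg, hmul.supp, ?_⟩, ?_⟩
    · intro c
      rw [← hmul.eq c, Finset.prod_insert hq, mul_comm]
    · have h1 := hA.sum_le hF (AF_zero (d q) (M q) (hM q (Finset.mem_insert_self _ _)))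
      rw [hmul.sum_eq, hA.sum_eq] at h1
      have hp : (0 : ℝ) < p := by exact_mod_cast (Fact.out : p.Prime).pos
      have h2 := le_of_mul_le_mul_left h1 hp
      exact hA0.trans h2

lemma box_neg {ι : Type} (d : ι → ZMod p) (M : ι → ℕ) (S : Finset ι) (g : ZMod p)
    (hg : -g ∈ Box S d M) : g ∈ Box S d M := by
  obtain ⟨m, hm, h⟩ := hg
  refine ⟨fun q => - m q, fun q hq => by simpa using hm q hq, ?_⟩
  rw [← neg_neg g, h, ← Finset.sum_neg_distrib]
  simp

lemma norm_pow_sub_one (z : ℂ) (hz : ‖z‖ = 1) (n : ℕ) : ‖z ^ n - 1‖ ≤ n * ‖z - 1‖ := by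
  induction n with
  | zero => simp
  | succ n ih =>
    have : z ^ (n + 1) - 1 = z ^ n * (z - 1) + (z ^ n - 1) := by ring
    rw [this]
    refine (norm_add_le _ _).trans ?_
    rw [norm_mul, norm_pow, hz, one_pow, one_mul]
    push_cast
    linarith

lemma norm_psi_zsmul (x : ZMod p) (m : ℤ) :
    ‖(ZMod.stdAddChar (m • x) : ℂ) - 1‖ ≤ |(m : ℝ)| * ‖(ZMod.stdAddChar x : ℂ) - 1‖ := by
  rcases Int.eq_nat_or_neg m with ⟨n, rfl | rfl⟩
  · rw [natCast_zsmul, AddChar.map_nsmul_eq_pow]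
    simpa using norm_pow_sub_one _ (norm_psi x) n
  · rw [neg_smul, natCast_zsmul]
    have h1 : (ZMod.stdAddChar (-(n • x)) : ℂ) - 1 =
        - ((ZMod.stdAddChar (-(n • x)) : ℂ) * ((ZMod.stdAddChar (n • x) : ℂ) - 1)) := by
      have : (ZMod.stdAddChar (-(n • x)) : ℂ) * (ZMod.stdAddChar (n • x) : ℂ) = 1 := by
        rw [← AddChar.map_add_eq_mul]; simp
      rw [mul_sub, this]; ring
    rw [h1, norm_neg, norm_mul, norm_psi, one_mul, AddChar.map_nsmul_eq_pow]
    simpa using norm_pow_sub_one _ (norm_psi x) n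

lemma norm_psi_sum {ι : Type} (Q : Finset ι) (x : ι → ZMod p) :
    ‖(ZMod.stdAddChar (∑ q ∈ Q, x q) : ℂ) - 1‖ ≤ ∑ q ∈ Q, ‖(ZMod.stdAddChar (x q) : ℂ) - 1‖ := by
  classical
  induction Q using Finset.induction_on with
  | empty => simp
  | insert q S hq ih =>
    rw [Finset.sum_insert hq, Finset.sum_insert hq, AddChar.map_add_eq_mul]
    have : (ZMod.stdAddChar (x q) : ℂ) * (ZMod.stdAddChar (∑ q ∈ S, x q) : ℂ) - 1 =
        (ZMod.stdAddChar (x q) : ℂ) * ((ZMod.stdAddChar (∑ q ∈ S, x q) : ℂ) - 1) +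
          ((ZMod.stdAddChar (x q) : ℂ) - 1) := by ring
    rw [this]
    refine (norm_add_le _ _).trans ?_
    rw [norm_mul, norm_psi, one_mul]
    linarith

theorem main : S_fejer := by
  intro p _ ι Q d M hM
  classical
  have hp : (0 : ℝ) < p := by exact_mod_cast (Fact.out : p.Prime).pos
  obtain ⟨A, hA, hA0⟩ := good_prod d M Q hM
  set W : ZMod p → ℝ := fun c => ∏ q ∈ Q, F (d q) (M q) c with hW
  have hWnn : ∀ c, 0 ≤ W c := fun c => Finset.prod_nonneg fun q _ => F_nonneg _ _ _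
  set Z : ℝ := ∑ c, W c with hZ
  have hZeq : Z = p * A 0 := hA.sum_eq
  have hZp : (p : ℝ) ≤ Z := by rw [hZeq]; nlinarith
  have hZpos : 0 < Z := lt_of_lt_of_le hp hZp
  have hsum1 : ∑ c, W c / Z = 1 := by
    rw [← Finset.sum_div, ← hZ, div_self hZpos.ne']
  refine ⟨fun c => W c / Z, fun c => div_nonneg (hWnn c) hZpos.le, hsum1, ?_, ?_, ?_⟩
  · have h0 : W 0 = ∏ q ∈ Q, (M q : ℝ) :=
      Finset.prod_congr rfl fun q hq => F_zero (d q) (M q) (hM q hq)
    show W 0 / Z ≤ _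
    rw [h0]
    exact div_le_div_of_nonneg_left (Finset.prod_nonneg fun q _ => Nat.cast_nonneg _) hp hZp
  · intro g hg
    have h1 := hA.sum_mul g
    have h2 : A (-g) = 0 := by
      refine hA.supp _ fun h => hg (box_neg d M Q g h)
    rw [h2] at h1
    have h3 : ∀ c, (((fun c => W c / Z) c : ℝ) : ℂ) * ZMod.stdAddChar (c * g) =
        (1 / (Z : ℂ)) * ((W c : ℂ) * ZMod.stdAddChar (c * g)) := by
      intro c; push_cast; ring
    simp_rw [h3]
    rw [← Finset.mul_sum, h1]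
    simp
  · intro m
    -- closeness for one q
    have key : ∀ q ∈ Q, ∑ c, W c / Z * ‖(ZMod.stdAddChar (c * d q) : ℂ) - 1‖ ≤
        2 / Real.sqrt (M q) := by
      intro q hq
      have hMq : (0 : ℝ) < M q := by exact_mod_cast hM q hq
      obtain ⟨B, hB, hB0⟩ := good_prod d M (Q.erase q) fun x hx => hM x (Finset.mem_of_mem_erase hx)
      have hle := hB.sum_le (good_F (d q) (M q)) (AF_zero (d q) (M q) (hM q hq))
      have hWV : ∀ c, (∏ x ∈ Q.erase q, F (d x) (M x) c) * F (d q) (M q) c = W c := by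
        intro c; rw [mul_comm, hW]; exact Finset.mul_prod_erase Q (fun x => F (d x) (M x) c) hq
      simp_rw [hWV] at hle
      have hsq : ∑ c, W c / Z * ‖(ZMod.stdAddChar (c * d q) : ℂ) - 1‖ ^ 2 ≤ 4 / M q := by
        have h1 : ∀ c, W c * ‖(ZMod.stdAddChar (c * d q) : ℂ) - 1‖ ^ 2 ≤
            (4 / M q) * (∏ x ∈ Q.erase q, F (d x) (M x) c) := by
          intro c
          rw [← hWV c, mul_assoc, mul_comm (4 / (M q : ℝ))]
          exact mul_le_mul_of_nonneg_left (F_close (d q) (M q) c)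
            (Finset.prod_nonneg fun x _ => F_nonneg _ _ _)
        have h2 : ∑ c, W c * ‖(ZMod.stdAddChar (c * d q) : ℂ) - 1‖ ^ 2 ≤ (4 / M q) * Z := by
          refine (Finset.sum_le_sum fun c _ => h1 c).trans ?_
          rw [← Finset.mul_sum]
          exact mul_le_mul_of_nonneg_left hle (by positivity)
        calc ∑ c, W c / Z * ‖(ZMod.stdAddChar (c * d q) : ℂ) - 1‖ ^ 2
            = (∑ c, W c * ‖(ZMod.stdAddChar (c * d q) : ℂ) - 1‖ ^ 2) / Z := by
              rw [Finset.sum_div]; refine Finset.sum_congr rfl fun c _ => by ring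
          _ ≤ ((4 / M q) * Z) / Z := by gcongr
          _ = 4 / M q := by field_simp
      -- Cauchy-Schwarz
      have hcs : (∑ c, W c / Z * ‖(ZMod.stdAddChar (c * d q) : ℂ) - 1‖) ^ 2 ≤ 4 / M q := by
        have := Finset.sum_mul_sq_le_sq_mul_sq (Finset.univ : Finset (ZMod p))
          (fun c => Real.sqrt (W c / Z))
          (fun c => Real.sqrt (W c / Z) * ‖(ZMod.stdAddChar (c * d q) : ℂ) - 1‖)
        have e1 : ∀ c, Real.sqrt (W c / Z) * (Real.sqrt (W c / Z) *
            ‖(ZMod.stdAddChar (c * d q) : ℂ) - 1‖) =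
            W c / Z * ‖(ZMod.stdAddChar (c * d q) : ℂ) - 1‖ := by
          intro c
          rw [← mul_assoc, Real.mul_self_sqrt (div_nonneg (hWnn c) hZpos.le)]
        have e2 : ∀ c, Real.sqrt (W c / Z) ^ 2 = W c / Z := fun c =>
          Real.sq_sqrt (div_nonneg (hWnn c) hZpos.le)
        simp_rw [mul_pow, e1, e2] at this
        rw [hsum1, one_mul] at this
        exact this.trans hsq
      have h5 : 2 / Real.sqrt (M q) = Real.sqrt (4 / M q) := by
        rw [Real.sqrt_div (by norm_num)]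
        congr 1
        rw [show (4 : ℝ) = 2 ^ 2 by norm_num, Real.sqrt_sq (by norm_num)]
      rw [h5]
      exact Real.le_sqrt_of_sq_le hcs
    have hpt : ∀ c : ZMod p, ‖(ZMod.stdAddChar (c * ∑ q ∈ Q, m q • d q) : ℂ) - 1‖ ≤
        ∑ q ∈ Q, |(m q : ℝ)| * ‖(ZMod.stdAddChar (c * d q) : ℂ) - 1‖ := by
      intro c
      rw [Finset.mul_sum]
      refine (norm_psi_sum Q _).trans (Finset.sum_le_sum fun q _ => ?_)
      rw [mul_smul_comm]
      exact norm_psi_zsmul _ _
    calc ∑ c, W c / Z * ‖(ZMod.stdAddChar (c * ∑ q ∈ Q, m q • d q) : ℂ) - 1‖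
        ≤ ∑ c, W c / Z * ∑ q ∈ Q, |(m q : ℝ)| * ‖(ZMod.stdAddChar (c * d q) : ℂ) - 1‖ :=
          Finset.sum_le_sum fun c _ =>
            mul_le_mul_of_nonneg_left (hpt c) (div_nonneg (hWnn c) hZpos.le)
      _ = ∑ q ∈ Q, |(m q : ℝ)| * ∑ c, W c / Z * ‖(ZMod.stdAddChar (c * d q) : ℂ) - 1‖ := by
          simp_rw [Finset.mul_sum]
          rw [Finset.sum_comm]
          refine Finset.sum_congr rfl fun q _ => Finset.sum_congr rfl fun c _ => by ring
      _ ≤ ∑ q ∈ Q, |(m q : ℝ)| * (2 / Real.sqrt (M q)) :=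
          Finset.sum_le_sum fun q hq => mul_le_mul_of_nonneg_left (key q hq) (abs_nonneg _)

end Pool.Agent.W396.LGFejer
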