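import Pool.Agent.W396.LGTp

/-!
Project LG (MP_c4c804_co), part PAIR: pairs, averaged over the translation.
-/

set_option autoImplicit false

namespace Pool.Agent.W396.LGPair

open Finset Pool.Agent.W246.LG

lemma norm_psi {p : ℕ} [Fact p.Prime] (x : ZMod p) : ‖(ZMod.stdAddChar x : ℂ)‖ = 1 := by
  rw [ZMod.stdAddChar_apply]; exact Circle.norm_coe _

/-- a set of integers in `[-h, h]` with gaps larger than `z` has at most `2h/z + 1` elements -/
lemma card_gap (h z : ℕ) (hz : 1 ≤ z) (S : Finset ℤ) (hS : ∀ j ∈ S, |j| ≤ (h : ℤ))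
    (hgap : ∀ i ∈ S, ∀ j ∈ S, i < j → (z : ℤ) < j - i) : (S.card : ℝ) ≤ 2 * h / z + 3 := by
  classical
  have hz' : (0 : ℤ) < z := by exact_mod_cast hz
  have hinj : Set.InjOn (fun j : ℤ => (j + h) / (z : ℤ)) (S : Set ℤ) := by
    intro i hi j hj hij
    simp only at hij
    by_contra hne
    rcases lt_or_gt_of_ne hne with hlt | hlt
    · have h1 := hgap i hi j hj hlt
      have h2 := Int.emod_add_mul_ediv (i + h) z
      have h3 := Int.emod_add_mul_ediv (j + h) z
      have h4 := Int.emod_nonneg (i + h) hz'.ne'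
      have h5 := Int.emod_lt_of_pos (j + h) hz'
      rw [hij] at h2
      linarith
    · have h1 := hgap j hj i hi hlt
      have h2 := Int.emod_add_mul_ediv (i + h) z
      have h3 := Int.emod_add_mul_ediv (j + h) z
      have h4 := Int.emod_nonneg (j + h) hz'.ne'
      have h5 := Int.emod_lt_of_pos (i + h) hz'
      rw [hij] at h2
      linarith
  have hsub : S.image (fun j : ℤ => (j + h) / (z : ℤ)) ⊆ Icc (0 : ℤ) (2 * h / z) := by
    intro k hk
    rw [Finset.mem_image] at hk
    obtain ⟨j, hj, rfl⟩ := hk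
    have := abs_le.1 (hS j hj)
    rw [Finset.mem_Icc]
    constructor
    · exact Int.ediv_nonneg (by linarith) hz'.le
    · exact Int.ediv_le_ediv hz' (by linarith)
  have hc : S.card ≤ (Icc (0 : ℤ) (2 * h / z)).card := by
    rw [← Finset.card_image_of_injOn hinj]
    exact Finset.card_le_card hsub
  rw [Int.card_Icc] at hc
  have h6 : (0 : ℤ) ≤ 2 * h / z := Int.ediv_nonneg (by positivity) hz'.le
  have h7 : ((2 * (h : ℤ) / z : ℤ) : ℝ) ≤ 2 * h / z := by
    have h8 : (z : ℤ) * (2 * (h : ℤ) / z) ≤ 2 * h := Int.mul_ediv_self_le hz'.ne'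
    have h9 : (z : ℝ) * ((2 * (h : ℤ) / z : ℤ) : ℝ) ≤ 2 * h := by exact_mod_cast h8
    have hzr : (0 : ℝ) < z := by exact_mod_cast hz
    rw [le_div_iff₀ hzr]; linarith
  have h10 : (S.card : ℤ) ≤ 2 * h / z + 1 := by
    have : (S.card : ℤ) ≤ ((2 * (h : ℤ) / z + 1 - 0).toNat : ℤ) := by exact_mod_cast hc
    rw [Int.toNat_of_nonneg (by linarith)] at this
    linarith
  have h11 : (S.card : ℝ) ≤ ((2 * (h : ℤ) / z : ℤ) : ℝ) + 1 := by exact_mod_cast h10
  linarith

theorem main : S_pair := by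
  intro p _ w T h z a g1 g2 hw hw1 hT ha ha0 hhp hz hgap
  classical
  have hp : (0 : ℝ) < p := by exact_mod_cast (Fact.out : p.Prime).pos
  have hp' : (p : ℂ) ≠ 0 := by exact_mod_cast hp.ne'
  set J : Finset ℤ := Icc (-(h : ℤ)) (h : ℤ) with hJ
  have htp : ∀ x : ZMod p, (tp p h a 1 x : ℂ) = ∑ j ∈ J, (a j : ℂ) * ZMod.stdAddChar (j • x) := by
    intro x
    rw [LGTp.sum_real p h a ha 1 x]
    congr 1
    ext j
    simp [hJ]
  set K : ZMod p → ℂ := fun g => ∑ c, (w c : ℂ) * ZMod.stdAddChar (c * g) with hK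
  have ha00 : 0 ≤ a 0 := (abs_nonneg _).trans (ha0 0)
  -- average over v
  have havg : ∀ c : ZMod p, ∑ v : ZMod p, ((tp p h a 1 (c * g1 - v) : ℝ) : ℂ) *
      ((tp p h a 1 (c * g2 - v) : ℝ) : ℂ) =
      p * ∑ j ∈ J, ((a j : ℂ) * (a j : ℂ)) * ZMod.stdAddChar (c * (j • (g1 - g2))) := by
    intro c
    have e1 : ∀ v : ZMod p, ((tp p h a 1 (c * g1 - v) : ℝ) : ℂ) *
        ((tp p h a 1 (c * g2 - v) : ℝ) : ℂ) =
        ∑ j ∈ J, ∑ k ∈ J, (((a j : ℂ) * (a k : ℂ)) * ZMod.stdAddChar (c * (j • g1 + k • g2))) *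
          ZMod.stdAddChar (v * (-((j + k : ℤ) : ZMod p))) := by
      intro v
      rw [htp, htp, Finset.sum_mul_sum]
      refine Finset.sum_congr rfl fun j _ => Finset.sum_congr rfl fun k _ => ?_
      have e2 : (ZMod.stdAddChar (j • (c * g1 - v)) : ℂ) * ZMod.stdAddChar (k • (c * g2 - v)) =
          ZMod.stdAddChar (c * (j • g1 + k • g2)) *
            ZMod.stdAddChar (v * (-((j + k : ℤ) : ZMod p))) := by
        rw [← AddChar.map_add_eq_mul, ← AddChar.map_add_eq_mul]
        congr 1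
        simp only [zsmul_eq_mul]
        push_cast
        ring
      calc (a j : ℂ) * ZMod.stdAddChar (j • (c * g1 - v)) *
            ((a k : ℂ) * ZMod.stdAddChar (k • (c * g2 - v)))
          = ((a j : ℂ) * (a k : ℂ)) * ((ZMod.stdAddChar (j • (c * g1 - v)) : ℂ) *
              ZMod.stdAddChar (k • (c * g2 - v))) := by ring
        _ = _ := by rw [e2]; ring
    simp_rw [e1]
    rw [Finset.sum_comm, Finset.mul_sum]
    refine Finset.sum_congr rfl fun j hj => ?_
    rw [Finset.sum_comm]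
    have e3 : ∀ k ∈ J, ∑ v : ZMod p, (((a j : ℂ) * (a k : ℂ)) *
        ZMod.stdAddChar (c * (j • g1 + k • g2))) *
          ZMod.stdAddChar (v * (-((j + k : ℤ) : ZMod p))) =
        if k = -j then p * (((a j : ℂ) * (a j : ℂ)) * ZMod.stdAddChar (c * (j • (g1 - g2))))
        else 0 := by
      intro k hk
      rw [← Finset.mul_sum, AddChar.sum_mulShift _ (ZMod.isPrimitive_stdAddChar p)]
      by_cases hkj : k = -j
      · subst hkj
        rw [if_pos rfl, if_pos (by simp), ha, ZMod.card]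
        have : j • g1 + (-j) • g2 = j • (g1 - g2) := by rw [neg_smul, smul_sub]; ring
        rw [this]
        ring
      · rw [if_neg hkj, if_neg, Nat.cast_zero, mul_zero]
        intro h0
        rw [neg_eq_zero, ZMod.intCast_zmod_eq_zero_iff_dvd] at h0
        rw [hJ, Finset.mem_Icc] at hj hk
        apply hkj
        obtain ⟨m, hm⟩ := h0
        have hm0 : m = 0 := by
          by_contra hmne
          rcases lt_or_gt_of_ne hmne with hlt | hlt
          · have : (p : ℤ) * m ≤ -(p : ℤ) := by nlinarith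
            omega
          · have : (p : ℤ) ≤ p * m := by nlinarith
            omega
        rw [hm0, mul_zero] at hm
        omega
    rw [Finset.sum_congr rfl e3, Finset.sum_ite_eq' J (-j), if_pos]
    rw [hJ, Finset.mem_Icc] at hj ⊢
    omega
  have hmain : (((∑ v : ZMod p, ∑ c, w c * (tp p h a 1 (c * g1 - v) *
      tp p h a 1 (c * g2 - v))) / p : ℝ) : ℂ) =
      ∑ j ∈ J, ((a j : ℂ) * (a j : ℂ)) * K (j • (g1 - g2)) := by
    push_cast
    rw [Finset.sum_comm]
    simp_rw [← Finset.mul_sum, havg]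
    rw [div_eq_iff hp']
    simp_rw [hK, Finset.mul_sum, Finset.sum_mul]
    rw [Finset.sum_comm]
    refine Finset.sum_congr rfl fun j _ => Finset.sum_congr rfl fun c _ => ?_
    ring
  -- bound
  have hKT : ∀ g, g ∉ T → K g = 0 := hT
  have hK1 : ∀ g, ‖K g‖ ≤ 1 := by
    intro g
    refine (norm_sum_le _ _).trans ?_
    rw [← hw1]
    refine Finset.sum_le_sum fun c _ => ?_
    rw [norm_mul, norm_psi, mul_one, Complex.norm_real, Real.norm_of_nonneg (hw c)]
  set S := J.filter (fun j => j • (g1 - g2) ∈ T) with hSdef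
  have hcard : (S.card : ℝ) ≤ 2 * h / z + 3 := by
    refine card_gap h z hz S ?_ ?_
    · intro j hj
      rw [hSdef, Finset.mem_filter, hJ, Finset.mem_Icc] at hj
      exact abs_le.2 hj.1
    · intro i hi j hj hij
      by_contra hle
      rw [hSdef, Finset.mem_filter] at hi hj
      obtain ⟨n, hn⟩ := Int.eq_ofNat_of_zero_le (by linarith : 0 ≤ j - i)
      refine hgap n (by omega) (by omega) ⟨j • (g1 - g2), hj.2, i • (g1 - g2), hi.2, ?_⟩
      rw [← sub_smul, hn, natCast_zsmul, nsmul_eq_mul]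
  have hnorm : ‖∑ j ∈ J, ((a j : ℂ) * (a j : ℂ)) * K (j • (g1 - g2))‖ ≤
      a 0 ^ 2 * (2 * h / z + 3) := by
    refine (norm_sum_le _ _).trans ?_
    have e4 : ∀ j ∈ J, ‖((a j : ℂ) * (a j : ℂ)) * K (j • (g1 - g2))‖ ≤
        if j • (g1 - g2) ∈ T then a 0 ^ 2 else 0 := by
      intro j _
      split_ifs with hjT
      · rw [norm_mul, norm_mul, Complex.norm_real, Real.norm_eq_abs]
        have h1 := ha0 j
        have h2 := hK1 (j • (g1 - g2))
        have h3 := abs_nonneg (a j)
        have h4 := norm_nonneg (K (j • (g1 - g2)))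
        calc |a j| * |a j| * ‖K (j • (g1 - g2))‖ ≤ |a j| * |a j| * 1 := by gcongr
          _ = |a j| * |a j| := mul_one _
          _ ≤ a 0 * a 0 := by gcongr
          _ = a 0 ^ 2 := by ring
      · rw [hKT _ hjT, mul_zero, norm_zero]
    refine (Finset.sum_le_sum e4).trans ?_
    rw [← Finset.sum_filter, Finset.sum_const, nsmul_eq_mul, mul_comm]
    exact mul_le_mul_of_nonneg_left hcard (by positivity)
  have hre := congrArg Complex.re hmain
  rw [Complex.ofReal_re] at hre
  rw [hre]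
  exact (Complex.re_le_norm _).trans hnorm

end Pool.Agent.W396.LGPair
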