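import Pool.Agent.W246.LG.Defs

/-!
Project LG (MP_c4c804_co), part TP: transfer to `ZMod p`.
-/

set_option autoImplicit false

namespace Pool.Agent.W396.LGTp

open Finset Pool.Agent.W246.LG

lemma psi_zsmul (p : ℕ) [NeZero p] (j : ℤ) (x : ZMod p) :
    (ZMod.stdAddChar (j • x) : ℂ) =
      Complex.exp (2 * Real.pi * Complex.I * j * ((x.val : ℝ) / (p : ℝ) : ℝ)) := by
  have h1 : j • x = ((j * (x.val : ℤ) : ℤ) : ZMod p) := by
    rw [zsmul_eq_mul]; push_cast; rw [ZMod.natCast_zmod_val]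
  rw [h1, ZMod.stdAddChar_coe]
  congr 1
  push_cast
  ring

lemma sum_real (p h : ℕ) [NeZero p] (a : ℤ → ℝ) (ha : ∀ j : ℤ, a (-j) = a j) (o : ℕ)
    (x : ZMod p) : (tp p h a o x : ℂ) =
    ∑ j ∈ (Icc (-(h : ℤ)) (h : ℤ)).filter (fun j => (o : ℤ) ∣ j),
      (a j : ℂ) * ZMod.stdAddChar (j • x) := by
  unfold tp
  rw [← Complex.conj_eq_iff_re, map_sum]
  refine Finset.sum_bij' (fun j _ => -j) (fun j _ => -j) ?_ ?_ ?_ ?_ ?_
  · intro j hj
    rw [Finset.mem_filter, Finset.mem_Icc] at hj ⊢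
    exact ⟨⟨by omega, by omega⟩, (dvd_neg).2 hj.2⟩
  · intro j hj
    rw [Finset.mem_filter, Finset.mem_Icc] at hj ⊢
    exact ⟨⟨by omega, by omega⟩, (dvd_neg).2 hj.2⟩
  · intro j _; ring
  · intro j _; ring
  · intro j _
    rw [map_mul, Complex.conj_ofReal, ← AddChar.map_neg_eq_conj, ha, neg_smul]

lemma geom (o : ℕ) (ho : 1 ≤ o) (j : ℤ) :
    ∑ i ∈ range o, Complex.exp (2 * Real.pi * Complex.I * j * ((i : ℝ) / (o : ℝ) : ℝ)) =
      if (o : ℤ) ∣ j then (o : ℂ) else 0 := by
  have ho' : (o : ℂ) ≠ 0 := by exact_mod_cast (by omega : o ≠ 0)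
  have h1 : ∀ i : ℕ, Complex.exp (2 * Real.pi * Complex.I * j * ((i : ℝ) / (o : ℝ) : ℝ)) =
      Complex.exp (2 * Real.pi * Complex.I * j / o) ^ i := by
    intro i
    rw [← Complex.exp_nat_mul]
    congr 1; push_cast; ring
  simp_rw [h1]
  split_ifs with hj
  · obtain ⟨k, rfl⟩ := hj
    have : Complex.exp (2 * Real.pi * Complex.I * ((o : ℤ) * k : ℤ) / o) = 1 := by
      rw [Complex.exp_eq_one_iff]
      refine ⟨k, ?_⟩
      push_cast; field_simp
    rw [this]; simp
  · set z := Complex.exp (2 * Real.pi * Complex.I * j / o) with hz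
    have hz1 : z ≠ 1 := by
      intro h
      rw [hz, Complex.exp_eq_one_iff] at h
      obtain ⟨n, hn⟩ := h
      apply hj
      have hpi : (2 * Real.pi * Complex.I : ℂ) ≠ 0 := by
        simp [Real.pi_ne_zero, Complex.I_ne_zero]
      have h2 : (j : ℂ) = n * o := by
        have h3 : (2 * Real.pi * Complex.I : ℂ) * (j : ℂ) = (2 * Real.pi * Complex.I : ℂ) * (n * o) := by
          field_simp at hn
          linear_combination (2 * Real.pi * Complex.I : ℂ) * hn
        exact mul_left_cancel₀ hpi h3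
      have h4 : j = n * (o : ℤ) := by exact_mod_cast h2
      exact ⟨n, by rw [h4]; ring⟩
    have hzo : z ^ o = 1 := by
      rw [hz, ← Complex.exp_nat_mul, Complex.exp_eq_one_iff]
      exact ⟨j, by field_simp⟩
    have h5 := geom_sum_mul z o
    rw [hzo, sub_self] at h5
    exact (mul_eq_zero.1 h5).resolve_right (sub_ne_zero.2 hz1)

theorem main : S_tp := by
  intro p h _ chi a _ hchi ha
  refine ⟨?_, ?_, ?_⟩
  · intro o ho x
    have ho' : (o : ℂ) ≠ 0 := by exact_mod_cast (by omega : o ≠ 0)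
    have hC : ((tp p h a o x : ℝ) : ℂ) =
        (((∑ i ∈ range o, chi ((x.val : ℝ) / p + i / o)) / o : ℝ) : ℂ) := by
      rw [sum_real p h a ha o x]
      push_cast
      simp_rw [hchi]
      rw [Finset.sum_comm]
      have h1 : ∀ j : ℤ, ∑ i ∈ range o, (a j : ℂ) * Complex.exp (2 * Real.pi * Complex.I * j *
          (((x.val : ℝ) / p + (i : ℝ) / o : ℝ) : ℂ)) =
          if (o : ℤ) ∣ j then (o : ℂ) * ((a j : ℂ) * ZMod.stdAddChar (j • x)) else 0 := by
        intro j
        have h2 : ∀ i : ℕ, (a j : ℂ) * Complex.exp (2 * Real.pi * Complex.I * j *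
            (((x.val : ℝ) / p + (i : ℝ) / o : ℝ) : ℂ)) =
            ((a j : ℂ) * ZMod.stdAddChar (j • x)) *
              Complex.exp (2 * Real.pi * Complex.I * j * ((i : ℝ) / (o : ℝ) : ℝ)) := by
          intro i
          have h3 : Complex.exp (2 * Real.pi * Complex.I * j *
              (((x.val : ℝ) / p + (i : ℝ) / o : ℝ) : ℂ)) =
              Complex.exp (2 * Real.pi * Complex.I * j * ((x.val : ℝ) / (p : ℝ) : ℝ)) *
              Complex.exp (2 * Real.pi * Complex.I * j * ((i : ℝ) / (o : ℝ) : ℝ)) := by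
            rw [← Complex.exp_add]
            congr 1
            push_cast; ring
          rw [psi_zsmul, h3]; ring
        simp_rw [h2]
        rw [← Finset.mul_sum, geom o ho j]
        split_ifs <;> ring
      rw [Finset.sum_congr rfl fun j _ => h1 j, ← Finset.sum_filter, ← Finset.mul_sum]
      field_simp
    exact_mod_cast hC
  · intro x
    have h1 : (Icc (-(h : ℤ)) (h : ℤ)).filter (fun j => ((0 : ℕ) : ℤ) ∣ j) = {0} := by
      ext j
      simp only [Finset.mem_filter, Finset.mem_Icc, Nat.cast_zero, zero_dvd_iff,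
        Finset.mem_singleton]
      constructor
      · exact fun h => h.2
      · rintro rfl; exact ⟨⟨by omega, by omega⟩, rfl⟩
    unfold tp
    rw [h1]
    simp
  · intro o x
    exact sum_real p h a ha o x

end Pool.Agent.W396.LGTp
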