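import Pool.Agent.W668.Uni.Stmts

/-!
# Landsberg unicorn, subtask UNI-ETA: the smooth solution map of the quadratic fixed point equation
-/

set_option autoImplicit false

open Set MeasureTheory
open scoped ContDiff Topology

namespace Pool.Agent.W396.UniEta

open Pool.Agent.W668.Uni

noncomputable section

theorem norm_w : ‖w‖ ≤ 1 := by
  refine (ContinuousMap.norm_le _ zero_le_one).2 fun z => ?_
  rw [Real.norm_eq_abs]
  exact Real.abs_sin_le_one _

theorem norm_one_Y : ‖(1 : Y)‖ ≤ 1 := by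
  refine (ContinuousMap.norm_le _ zero_le_one).2 fun z => ?_
  simp

variable (O : Ops)

/-- the fixed point map -/
def Psi (ε : ℝ) (F η : Y) : Y := - O.S3 (F * (1 + ε • (w * η))) - (ε / 2) • (w * η ^ 2)

theorem norm_w_mul (h : Y) : ‖w * h‖ ≤ ‖h‖ := by
  refine (norm_mul_le _ _).trans ?_
  calc ‖w‖ * ‖h‖ ≤ 1 * ‖h‖ := mul_le_mul_of_nonneg_right norm_w (norm_nonneg _)
    _ = ‖h‖ := one_mul _

theorem Psi_sub (ε : ℝ) (F η η' : Y) : Psi O ε F η - Psi O ε F η' =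
    - (ε • O.S3 (F * (w * (η - η')))) - (ε / 2) • (w * ((η + η') * (η - η'))) := by
  unfold Psi
  have h1 : O.S3 (F * (1 + ε • (w * η))) = O.S3 (F * (1 + ε • (w * η'))) +
      ε • O.S3 (F * (w * (η - η'))) := by
    rw [← map_smul, ← map_add]
    congr 1
    simp only [mul_add, mul_sub, smul_sub, mul_smul_comm]
    abel
  have h2 : (ε / 2) • (w * η ^ 2) = (ε / 2) • (w * η' ^ 2) +
      (ε / 2) • (w * ((η + η') * (η - η'))) := by
    rw [← smul_add, ← mul_add]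
    congr 2
    ring
  rw [h1, h2]
  abel

theorem Psi_lip (ε : ℝ) (F η η' : Y) : ‖Psi O ε F η - Psi O ε F η'‖ ≤
    (|ε| * ‖F‖ + |ε| / 2 * ‖η + η'‖) * ‖η - η'‖ := by
  rw [Psi_sub]
  have h1 : ‖-(ε • O.S3 (F * (w * (η - η'))))‖ ≤ |ε| * (‖F‖ * ‖η - η'‖) := by
    rw [norm_neg, norm_smul, Real.norm_eq_abs]
    refine mul_le_mul_of_nonneg_left ?_ (abs_nonneg _)
    refine (O.S3_norm _).trans ((norm_mul_le _ _).trans ?_)
    exact mul_le_mul_of_nonneg_left (norm_w_mul _) (norm_nonneg _)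
  have h2 : ‖(ε / 2) • (w * ((η + η') * (η - η')))‖ ≤ |ε| / 2 * (‖η + η'‖ * ‖η - η'‖) := by
    rw [norm_smul, Real.norm_eq_abs, abs_div, abs_two]
    refine mul_le_mul_of_nonneg_left ?_ (by positivity)
    exact (norm_w_mul _).trans (norm_mul_le _ _)
  calc ‖-(ε • O.S3 (F * (w * (η - η')))) - (ε / 2) • (w * ((η + η') * (η - η')))‖
      ≤ ‖-(ε • O.S3 (F * (w * (η - η'))))‖ + ‖(ε / 2) • (w * ((η + η') * (η - η')))‖ :=
        norm_sub_le _ _
    _ ≤ |ε| * (‖F‖ * ‖η - η'‖) + |ε| / 2 * (‖η + η'‖ * ‖η - η'‖) := add_le_add h1 h2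
    _ = _ := by ring

theorem Psi_zero (ε : ℝ) (F : Y) : ‖Psi O ε F 0‖ ≤ ‖F‖ := by
  unfold Psi
  have : - O.S3 (F * (1 + ε • (w * 0))) - (ε / 2) • (w * (0 : Y) ^ 2) = - O.S3 F := by
    simp
  rw [this, norm_neg]
  exact O.S3_norm F

theorem exists_fix {M : ℝ} (hM : 0 < M) (ε : ℝ) (F : Y) (hε : |ε| < 1 / (8 * M)) (hF : ‖F‖ < M) :
    ∃ η : Y, ‖η‖ ≤ 2 * M ∧ Psi O ε F η = η := by
  have hεM : |ε| * M ≤ 1 / 8 := by
    have := (lt_div_iff₀ (by positivity : (0 : ℝ) < 8 * M)).1 hε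
    nlinarith
  have hε0 := abs_nonneg ε
  set s : Set Y := Metric.closedBall 0 (2 * M) with hs
  have hsc : IsComplete s := Metric.isClosed_closedBall.isComplete
  have hlip : ∀ x ∈ s, ∀ y ∈ s, ‖Psi O ε F x - Psi O ε F y‖ ≤ 3 / 8 * ‖x - y‖ := by
    intro x hx y hy
    rw [hs, mem_closedBall_zero_iff] at hx hy
    refine (Psi_lip O ε F x y).trans ?_
    refine mul_le_mul_of_nonneg_right ?_ (norm_nonneg _)
    have h1 : |ε| * ‖F‖ ≤ |ε| * M := mul_le_mul_of_nonneg_left hF.le hε0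
    have h2 : ‖x + y‖ ≤ 4 * M := (norm_add_le _ _).trans (by linarith)
    have h3 : |ε| / 2 * ‖x + y‖ ≤ |ε| / 2 * (4 * M) :=
      mul_le_mul_of_nonneg_left h2 (by positivity)
    nlinarith
  have hmaps : MapsTo (Psi O ε F) s s := by
    intro x hx
    have h0 : (0 : Y) ∈ s := by
      rw [hs, mem_closedBall_zero_iff, norm_zero]; positivity
    have h1 := hlip x hx 0 h0
    rw [sub_zero] at h1
    have hx' := hx
    rw [hs, mem_closedBall_zero_iff] at hx'
    rw [hs, mem_closedBall_zero_iff]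
    have h2 : ‖Psi O ε F x‖ ≤ ‖Psi O ε F x - Psi O ε F 0‖ + ‖Psi O ε F 0‖ := by
      have := norm_add_le (Psi O ε F x - Psi O ε F 0) (Psi O ε F 0)
      rwa [sub_add_cancel] at this
    have h3 := Psi_zero O ε F
    linarith
  have hcontr : ContractingWith (3 / 8 : NNReal) (hmaps.restrict (Psi O ε F) s s) := by
    refine ⟨by rw [← NNReal.coe_lt_coe]; norm_num, ?_⟩
    refine LipschitzWith.of_dist_le_mul fun x y => ?_
    rw [Subtype.dist_eq, Subtype.dist_eq, dist_eq_norm, dist_eq_norm]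
    have := hlip x.1 x.2 y.1 y.2
    simpa using this
  obtain ⟨η, hη, hfix, _⟩ := hcontr.exists_fixedPoint' hsc hmaps
    (x := 0) (by rw [hs, mem_closedBall_zero_iff, norm_zero]; positivity) (edist_ne_top _ _)
  rw [hs, mem_closedBall_zero_iff] at hη
  exact ⟨η, hη, hfix⟩

theorem uniq_fix {M : ℝ} (hM : 0 < M) (ε : ℝ) (F : Y) (hε : |ε| < 1 / (8 * M)) (hF : ‖F‖ < M)
    (η η' : Y) (h : |ε| * ‖η‖ ≤ 1 / 4) (h' : |ε| * ‖η'‖ ≤ 1 / 2) (hη : Psi O ε F η = η)
    (hη' : Psi O ε F η' = η') : η' = η := by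
  have hεM : |ε| * M ≤ 1 / 8 := by
    have := (lt_div_iff₀ (by positivity : (0 : ℝ) < 8 * M)).1 hε
    nlinarith
  have hε0 := abs_nonneg ε
  have h1 := Psi_lip O ε F η' η
  rw [hη, hη'] at h1
  have h2 : |ε| * ‖F‖ ≤ |ε| * M := mul_le_mul_of_nonneg_left hF.le hε0
  have h3 : |ε| * ‖η' + η‖ ≤ |ε| * (‖η'‖ + ‖η‖) := mul_le_mul_of_nonneg_left (norm_add_le _ _) hε0
  have h4 : |ε| * ‖F‖ + |ε| / 2 * ‖η' + η‖ ≤ 1 / 2 := by nlinarith
  have h5 : ‖η' - η‖ ≤ 1 / 2 * ‖η' - η‖ :=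
    h1.trans (mul_le_mul_of_nonneg_right h4 (norm_nonneg _))
  have h6 : ‖η' - η‖ = 0 := le_antisymm (by linarith) (norm_nonneg _)
  exact sub_eq_zero.1 (norm_eq_zero.1 h6)

/-- the map whose zeros are the solutions -/
def Theta (q : (ℝ × Y) × Y) : Y :=
  q.2 + O.S3 (q.1.2 * (1 + q.1.1 • (w * q.2))) + (q.1.1 / 2) • (w * q.2 ^ 2)

theorem Theta_eq_zero {ε : ℝ} {F η : Y} : Theta O ((ε, F), η) = 0 ↔ Psi O ε F η = η := by
  unfold Theta Psi
  constructor
  · intro h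
    have : η = - O.S3 (F * (1 + ε • (w * η))) - (ε / 2) • (w * η ^ 2) := by
      rw [← sub_eq_zero, ← h]; abel
    exact this.symm
  · intro h
    rw [← sub_eq_zero] at h
    rw [← neg_eq_zero, ← h]
    simp only
    abel

theorem contDiff_Theta : ContDiff ℝ ∞ (Theta O) := by
  unfold Theta
  have h1 : ContDiff ℝ ∞ (fun q : (ℝ × Y) × Y => w * q.2) :=
    contDiff_const.mul contDiff_snd
  have h2 : ContDiff ℝ ∞ (fun q : (ℝ × Y) × Y => q.1.2 * (1 + q.1.1 • (w * q.2))) :=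
    (contDiff_snd.comp contDiff_fst).mul
      (contDiff_const.add ((contDiff_fst.comp contDiff_fst).smul h1))
  have h3 : ContDiff ℝ ∞ (fun q : (ℝ × Y) × Y => (q.1.1 / 2) • (w * q.2 ^ 2)) :=
    ((contDiff_fst.comp contDiff_fst).div_const 2).smul
      (contDiff_const.mul (contDiff_snd.pow 2))
  exact (contDiff_snd.add (O.S3.contDiff.comp h2)).add h3

/-- the partial derivative with respect to `η` -/
def Bop (ε : ℝ) (F η : Y) : Y →L[ℝ] Y :=
  ContinuousLinearMap.id ℝ Y +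
    O.S3.comp ((ContinuousLinearMap.mul ℝ Y F).comp (ε • ContinuousLinearMap.mul ℝ Y w)) +
    ε • ContinuousLinearMap.mul ℝ Y (w * η)

theorem hasFDerivAt_partial (ε : ℝ) (F η : Y) :
    HasFDerivAt (fun h : Y => Theta O ((ε, F), h)) (Bop O ε F η) η := by
  have h1 : HasFDerivAt (fun h : Y => h * h) (η • ContinuousLinearMap.id ℝ Y +
      η • ContinuousLinearMap.id ℝ Y) η := (hasFDerivAt_id η).mul (hasFDerivAt_id η)
  have h2 : HasFDerivAt (fun h : Y => w * (h * h)) (w • (η • ContinuousLinearMap.id ℝ Y +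
      η • ContinuousLinearMap.id ℝ Y)) η := h1.const_mul w
  have h3 := h2.const_smul (ε / 2)
  have h4 : HasFDerivAt (fun h : Y => h + O.S3 (F * (ε • (w * h))))
      (ContinuousLinearMap.id ℝ Y +
        O.S3.comp ((ContinuousLinearMap.mul ℝ Y F).comp (ε • ContinuousLinearMap.mul ℝ Y w))) η :=
    (ContinuousLinearMap.id ℝ Y +
        O.S3.comp ((ContinuousLinearMap.mul ℝ Y F).comp
          (ε • ContinuousLinearMap.mul ℝ Y w))).hasFDerivAt
  have h5 := (h4.add h3).const_add (O.S3 F)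
  have h6 : (fun h : Y => Theta O ((ε, F), h)) = fun h : Y => O.S3 F +
      ((h + O.S3 (F * (ε • (w * h)))) + (ε / 2) • (w * (h * h))) := by
    funext h
    unfold Theta
    simp only [mul_add, mul_one, map_add, pow_two]
    abel
  rw [h6]
  refine h5.congr_fderiv ?_
  unfold Bop
  congr 1
  ext1 h
  have e1 : (ε • ContinuousLinearMap.mul ℝ Y (w * η)) h = ε • (w * η * h) := rfl
  have e2 : ((ε / 2) • w • (η • ContinuousLinearMap.id ℝ Y + η • ContinuousLinearMap.id ℝ Y)) h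
      = (ε / 2) • (w * (η * h + η * h)) := rfl
  rw [e1, e2, ← two_mul, mul_left_comm w 2, mul_assoc, ← smul_eq_mul 2, ofNat_smul_eq_nsmul,
    ← Nat.cast_smul_eq_nsmul ℝ, smul_smul]
  congr 1
  push_cast; ring

theorem Bop_norm {M : ℝ} (hM : 0 < M) (ε : ℝ) (F η : Y) (hε : |ε| < 1 / (8 * M)) (hF : ‖F‖ < M)
    (h : |ε| * ‖η‖ ≤ 1 / 4) : ‖1 - Bop O ε F η‖ < 1 := by
  have hεM : |ε| * M ≤ 1 / 8 := by
    have := (lt_div_iff₀ (by positivity : (0 : ℝ) < 8 * M)).1 hε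
    nlinarith
  have hε0 := abs_nonneg ε
  refine lt_of_le_of_lt (b := 1 / 2) ?_ (by norm_num)
  refine ContinuousLinearMap.opNorm_le_bound _ (by norm_num) fun x => ?_
  have e1 : (1 - Bop O ε F η) x = -(O.S3 (F * (ε • (w * x))) + ε • (w * η * x)) := by
    change x - (x + O.S3 (F * (ε • (w * x))) + ε • (w * η * x)) = _
    abel
  rw [e1, norm_neg]
  refine (norm_add_le _ _).trans ?_
  have h1 : ‖O.S3 (F * (ε • (w * x)))‖ ≤ 1 / 8 * ‖x‖ := by
    refine (O.S3_norm _).trans ((norm_mul_le _ _).trans ?_)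
    rw [norm_smul, Real.norm_eq_abs]
    have h2 := norm_w_mul x
    have h3 : ‖F‖ * (|ε| * ‖w * x‖) ≤ M * (|ε| * ‖x‖) := by gcongr
    nlinarith [norm_nonneg x]
  have h2 : ‖ε • (w * η * x)‖ ≤ 1 / 4 * ‖x‖ := by
    rw [norm_smul, Real.norm_eq_abs, mul_assoc]
    have h3 := (norm_w_mul (η * x)).trans (norm_mul_le _ _)
    calc |ε| * ‖w * (η * x)‖ ≤ |ε| * (‖η‖ * ‖x‖) := mul_le_mul_of_nonneg_left h3 hε0
      _ = (|ε| * ‖η‖) * ‖x‖ := by ring
      _ ≤ 1 / 4 * ‖x‖ := mul_le_mul_of_nonneg_right h (norm_nonneg _)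
  nlinarith [norm_nonneg x]

theorem Bop_inv {M : ℝ} (hM : 0 < M) (ε : ℝ) (F η : Y) (hε : |ε| < 1 / (8 * M)) (hF : ‖F‖ < M)
    (h : |ε| * ‖η‖ ≤ 1 / 4) : (Bop O ε F η).IsInvertible := by
  have h1 := Bop_norm O hM ε F η hε hF h
  set v := Units.oneSub (1 - Bop O ε F η) h1 with hv
  have h2 : v.val = Bop O ε F η := by
    rw [hv, Units.val_oneSub]
    abel
  have h3 : Bop O ε F η * v.inv = 1 := by rw [← h2]; exact v.val_inv
  have h4 : v.inv * Bop O ε F η = 1 := by rw [← h2]; exact v.inv_val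
  exact ContinuousLinearMap.IsInvertible.of_inverse (g := v.inv) h3 h4

/-- UNI-ETA -/
theorem uni_eta : P_eta := by
  intro O M hM
  classical
  have hex : ∀ p : ℝ × Y, ∃ η : Y, p ∈ dom (1 / (8 * M)) M → ‖η‖ ≤ 2 * M ∧ Psi O p.1 p.2 η = η := by
    intro p
    by_cases hp : p ∈ dom (1 / (8 * M)) M
    · obtain ⟨η, h1, h2⟩ := exists_fix O hM p.1 p.2 hp.1 hp.2
      exact ⟨η, fun _ => ⟨h1, h2⟩⟩
    · exact ⟨0, fun h => absurd h hp⟩
  choose η hη using hex
  have hbound : ∀ p ∈ dom (1 / (8 * M)) M, |p.1| * ‖η p‖ ≤ 1 / 4 := by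
    intro p hp
    have hεM : |p.1| * M ≤ 1 / 8 := by
      have := (lt_div_iff₀ (by positivity : (0 : ℝ) < 8 * M)).1 hp.1
      nlinarith
    have h1 := (hη p hp).1
    have h2 := mul_le_mul_of_nonneg_left h1 (abs_nonneg p.1)
    linarith
  have huniq : ∀ p ∈ dom (1 / (8 * M)) M, ∀ η' : Y, |p.1| * ‖η'‖ ≤ 1 / 2 →
      Psi O p.1 p.2 η' = η' → η' = η p := by
    intro p hp η' h1 h2
    exact uniq_fix O hM p.1 p.2 hp.1 hp.2 (η p) η' (hbound p hp) h1 (hη p hp).2 h2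
  have hopen : IsOpen (dom (1 / (8 * M)) M) := by
    have h1 : IsOpen {p : ℝ × Y | |p.1| < 1 / (8 * M)} :=
      isOpen_lt (continuous_abs.comp continuous_fst) continuous_const
    have h2 : IsOpen {p : ℝ × Y | ‖p.2‖ < M} :=
      isOpen_lt (continuous_norm.comp continuous_snd) continuous_const
    exact h1.inter h2
  refine ⟨1 / (8 * M), η, ⟨by positivity, ?_, ?_, ?_, hbound, ?_⟩⟩
  · have : 1 / (8 * M) * M = 1 / 8 := by field_simp
    exact this.le
  · intro p hp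
    apply ContDiffAt.contDiffWithinAt
    set u : (ℝ × Y) × Y := (p, η p) with hu
    have cdf : ContDiffAt ℝ ∞ (Theta O) u := (contDiff_Theta O).contDiffAt
    have hfd : fderiv ℝ (Theta O) u ∘L .inr ℝ (ℝ × Y) Y = Bop O p.1 p.2 (η p) := by
      have h1 : HasFDerivAt (Theta O) (fderiv ℝ (Theta O) u) u :=
        ((contDiff_Theta O).differentiable (by simp)).differentiableAt.hasFDerivAt
      have h2 : HasFDerivAt (fun h : Y => (p, h)) (ContinuousLinearMap.inr ℝ (ℝ × Y) Y) (η p) :=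
        hasFDerivAt_prodMk_right p (η p)
      have h3 := h1.comp (η p) h2
      exact h3.unique (hasFDerivAt_partial O p.1 p.2 (η p))
    have hinv : (fderiv ℝ (Theta O) u ∘L .inr ℝ (ℝ × Y) Y).IsInvertible := by
      rw [hfd]
      exact Bop_inv O hM p.1 p.2 (η p) hp.1 hp.2 (hbound p hp)
    have hn : (∞ : WithTop ℕ∞) ≠ 0 := by simp
    set ψ := cdf.implicitFunction hn hinv with hψ
    have hψs : ContDiffAt ℝ ∞ ψ p := cdf.contDiffAt_implicitFunction hn hinv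
    have hψ0 : ψ p = η p := cdf.implicitFunction_apply_self hn hinv
    have hu0 : Theta O u = 0 := (Theta_eq_zero O).2 (hη p hp).2
    have hψe : ∀ᶠ x in 𝓝 p, Theta O (x, ψ x) = 0 := by
      have := cdf.eventually_apply_implicitFunction hn hinv
      rw [hu0] at this
      exact this
    have hcont : ContinuousAt (fun x : ℝ × Y => |x.1| * ‖ψ x‖) p :=
      (continuous_abs.comp continuous_fst).continuousAt.mul hψs.continuousAt.norm
    have hlt : ∀ᶠ x in 𝓝 p, |x.1| * ‖ψ x‖ < 1 / 2 := by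
      apply hcont.eventually_lt continuousAt_const
      rw [hψ0]
      have := hbound p hp
      linarith
    have hmem : ∀ᶠ x in 𝓝 p, x ∈ dom (1 / (8 * M)) M := hopen.mem_nhds hp
    have heq : η =ᶠ[𝓝 p] ψ := by
      filter_upwards [hψe, hlt, hmem] with x h1 h2 h3
      exact (huniq x h3 (ψ x) h2.le ((Theta_eq_zero O).1 h1)).symm
    exact hψs.congr_of_eventuallyEq heq
  · intro p hp
    exact (hη p hp).2.symm
  · intro p hp η' h1 h2
    exact huniq p hp η' h1 h2.symm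

end

end Pool.Agent.W396.UniEta
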